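import Mathlib

set_option autoImplicit false

/-!
Concentration of interlaced maps into `W = (⊕ ℓ_∞^n)_1`.
-/

namespace Pool.Agent.TH321.BR

open Filter Topology

/-- the nonprincipal ultrafilter used for all limits -/
noncomputable abbrev U : Ultrafilter ℕ := Filter.hyperfilter ℕ

section W

variable {E : ℕ → Type} [∀ n, NormedAddCommGroup (E n)]

/-- the `ℓ_1`-sum of the spaces `E n` -/
abbrev W (E : ℕ → Type) [∀ n, NormedAddCommGroup (E n)] := lp E 1

lemma norm_W (f : W E) : ‖f‖ = ∑' n, ‖f n‖ := by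
  have h := lp.norm_eq_tsum_rpow (p := 1) (by norm_num) f
  simpa using h

lemma summable_W (f : W E) : Summable fun n => ‖f n‖ := by
  have h := (lp.memℓp f).summable (by norm_num)
  simpa using h

lemma le1 (u v : W E) (n : ℕ) : ‖u n‖ ≤ ‖(u - v) n‖ + ‖v n‖ :=
  norm_le_norm_sub_add (u n) (v n)

lemma le2 (u v : W E) (n : ℕ) : ‖v n‖ ≤ ‖(u - v) n‖ + ‖u n‖ := by
  have h : ‖v n‖ ≤ ‖v n - u n‖ + ‖u n‖ := norm_le_norm_sub_add (v n) (u n)
  rw [norm_sub_rev] at h
  exact h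

lemma head_tendsto (α : ℕ → ℕ → ℝ) (N : ℕ) (h : ∀ n, Tendsto (fun m => α m n) U (𝓝 0)) :
    Tendsto (fun m => ∑ n ∈ Finset.range N, α m n) U (𝓝 0) := by
  have h0 : (0 : ℝ) = ∑ n ∈ Finset.range N, (0 : ℝ) := by simp
  rw [h0]
  exact tendsto_finsetSum _ fun n _ => h n

lemma real_ineq (α β γ : ℕ → ℝ) (ha : Summable α) (hb : Summable β) (hc : Summable γ)
    (h1 : ∀ n, α n ≤ γ n + β n) (h2 : ∀ n, β n ≤ γ n + α n) (N : ℕ) (δ : ℝ)
    (hh : ∑ n ∈ Finset.range N, β n ≤ δ) (ht : ∑' n, α (n + N) ≤ δ) :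
    ∑' n, α n + ∑' n, β n ≤ ∑' n, γ n + 4 * δ := by
  rw [← ha.sum_add_tsum_nat_add N, ← hb.sum_add_tsum_nat_add N, ← hc.sum_add_tsum_nat_add N]
  have e1 : ∑ n ∈ Finset.range N, α n ≤
      ∑ n ∈ Finset.range N, γ n + ∑ n ∈ Finset.range N, β n := by
    rw [← Finset.sum_add_distrib]
    exact Finset.sum_le_sum fun n _ => h1 n
  have e2 : ∑' n, β (n + N) ≤ ∑' n, γ (n + N) + ∑' n, α (n + N) := by
    have s1 : Summable fun n => γ (n + N) := (summable_nat_add_iff N).2 hc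
    have s2 : Summable fun n => α (n + N) := (summable_nat_add_iff N).2 ha
    have s3 : Summable fun n => β (n + N) := (summable_nat_add_iff N).2 hb
    rw [← s1.tsum_add s2]
    exact s3.tsum_le_tsum (fun n => h2 (n + N)) (s1.add s2)
  linarith

lemma tendsto_coord (b : ℕ → W E) (b0 : W E) (n : ℕ)
    (h : Tendsto (fun m => b m n) U (𝓝 (b0 n))) :
    Tendsto (fun m => ‖(b m - b0) n‖) U (𝓝 0) := by
  have h2 : Tendsto (fun m => b m n - b0 n) U (𝓝 (b0 n - b0 n)) := h.sub_const _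
  rw [sub_self] at h2
  have h3 := h2.norm
  rw [norm_zero] at h3
  exact h3

lemma base1 (b : ℕ → W E) (b0 w : W E) (h : ∀ n, Tendsto (fun m => b m n) U (𝓝 (b0 n)))
    {ε : ℝ} (hε : 0 < ε) : ∀ᶠ m in (U : Filter ℕ), ‖w - b0‖ + ‖b m - b0‖ ≤ ‖w - b m‖ + ε := by
  obtain ⟨N, hN⟩ : ∃ N : ℕ, ∑' n, ‖(w - b0) (n + N)‖ < ε / 4 := by
    have := tendsto_sum_nat_add (fun n => ‖(w - b0) n‖)
    exact (this.eventually (gt_mem_nhds (show (0 : ℝ) < ε / 4 by positivity))).exists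
  have h1 := head_tendsto (fun m n => ‖(b m - b0) n‖) N fun n => tendsto_coord b b0 n (h n)
  filter_upwards [h1.eventually (gt_mem_nhds (show (0 : ℝ) < ε / 4 by positivity))] with m hm
  have huv : w - b m = (w - b0) - (b m - b0) := by abel
  rw [huv, norm_W (w - b0), norm_W (b m - b0), norm_W ((w - b0) - (b m - b0))]
  have := real_ineq (fun n => ‖(w - b0) n‖) (fun n => ‖(b m - b0) n‖)
    (fun n => ‖((w - b0) - (b m - b0)) n‖) (summable_W _) (summable_W _) (summable_W _)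
    (le1 _ _) (le2 _ _) N (ε / 4) hm.le hN.le
  linarith

lemma base2 (a b : ℕ → W E) (a0 b0 : W E) (ha : ∀ n, Tendsto (fun m => a m n) U (𝓝 (a0 n)))
    (hb : ∀ n, Tendsto (fun m => b m n) U (𝓝 (b0 n)))
    {ε : ℝ} (hε : 0 < ε) : ∀ᶠ m in (U : Filter ℕ), ∀ᶠ n in (U : Filter ℕ),
      ‖a0 - b0‖ + ‖a m - a0‖ + ‖b n - b0‖ ≤ ‖a m - b n‖ + ε := by
  filter_upwards [base1 a a0 b0 ha (half_pos hε)] with m hm
  filter_upwards [base1 b b0 (a m) hb (half_pos hε)] with n hn
  rw [norm_sub_rev b0 a0, norm_sub_rev b0 (a m)] at hm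
  linarith

variable [∀ n, ProperSpace (E n)]

/-- the coordinatewise limit of a bounded sequence -/
lemma exists_lim (b : ℕ → W E) (C : ℝ) (hb : ∀ m, ‖b m‖ ≤ C) :
    ∃ b0 : W E, ∀ n, Tendsto (fun m => b m n) U (𝓝 (b0 n)) := by
  have h1 : ∀ n, ∃ x : E n, Tendsto (fun m => b m n) U (𝓝 x) := by
    intro n
    have hc : IsCompact (Metric.closedBall (0 : E n) C) := isCompact_closedBall _ _
    obtain ⟨x, -, hx⟩ := hc.ultrafilter_le_nhds (U.map fun m => b m n) (by
      rw [Ultrafilter.coe_map, Filter.le_principal_iff]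
      refine Filter.mem_map.2 (Filter.univ_mem' fun m => ?_)
      simp only [Set.mem_preimage, Metric.mem_closedBall, dist_zero_right]
      exact (lp.norm_apply_le_norm one_ne_zero (b m) n).trans (hb m))
    exact ⟨x, hx⟩
  choose x hx using h1
  have hbd : Bornology.IsBounded (Set.range b) := by
    rw [isBounded_iff_forall_norm_le]
    exact ⟨C, by rintro _ ⟨m, rfl⟩; exact hb m⟩
  have ht : Tendsto (id fun m => (b m : ∀ n, E n)) U (𝓝 x) := by
    rw [tendsto_pi_nhds]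
    exact hx
  exact ⟨⟨x, lp.memℓp_of_tendsto hbd ht⟩, hx⟩

open Classical in
/-- the coordinatewise limit -/
noncomputable def cl (b : ℕ → W E) : W E :=
  if h : ∃ b0 : W E, ∀ n, Tendsto (fun m => b m n) U (𝓝 (b0 n)) then h.choose else 0

lemma cl_spec (b : ℕ → W E) (C : ℝ) (hb : ∀ m, ‖b m‖ ≤ C) :
    ∀ n, Tendsto (fun m => b m n) U (𝓝 (cl b n)) := by
  unfold cl
  rw [dif_pos (exists_lim b C hb)]
  exact (exists_lim b C hb).choose_spec

lemma norm_cl (b : ℕ → W E) (C : ℝ) (hb : ∀ m, ‖b m‖ ≤ C) : ‖cl b‖ ≤ C := by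
  refine lp.norm_le_of_tendsto (l := (U : Filter ℕ)) (F := b) (Eventually.of_forall hb) ?_
  rw [tendsto_pi_nhds]
  exact cl_spec b C hb

/-- the iterated limit of a function of `k` indices -/
noncomputable def IL : ∀ k : ℕ, ((Fin k → ℕ) → W E) → W E
  | 0, f => f Fin.elim0
  | k + 1, f => cl fun m => IL k fun t => f (Fin.cons m t)

lemma norm_IL (k : ℕ) (f : (Fin k → ℕ) → W E) (C : ℝ) (hf : ∀ s, ‖f s‖ ≤ C) : ‖IL k f‖ ≤ C := by
  induction k with
  | zero => exact hf _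
  | succ k ih => exact norm_cl _ C fun m => ih _ fun t => hf _

end W

/-- for most pairs of index sequences, chosen alternately -/
def Q2 : ∀ k : ℕ, ((Fin k → ℕ) → (Fin k → ℕ) → Prop) → Prop
  | 0, P => P Fin.elim0 Fin.elim0
  | k + 1, P => ∀ᶠ m in (U : Filter ℕ), ∀ᶠ n in (U : Filter ℕ),
      Q2 k fun s t => P (Fin.cons m s) (Fin.cons n t)

lemma Q2.mono {k : ℕ} {P R : (Fin k → ℕ) → (Fin k → ℕ) → Prop} (h : Q2 k P)
    (hPR : ∀ s t, P s t → R s t) : Q2 k R := by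
  induction k with
  | zero => exact hPR _ _ h
  | succ k ih =>
    refine Filter.Eventually.mono h fun m hm => Filter.Eventually.mono hm fun n hn => ?_
    exact ih hn fun s t => hPR _ _

lemma Q2.and {k : ℕ} {P R : (Fin k → ℕ) → (Fin k → ℕ) → Prop} (h : Q2 k P)
    (h' : Q2 k R) : Q2 k fun s t => P s t ∧ R s t := by
  induction k with
  | zero => exact ⟨h, h'⟩
  | succ k ih =>
    refine (Filter.Eventually.and h h').mono fun m hm => (hm.1.and hm.2).mono fun n hn => ?_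
    exact ih hn.1 hn.2

lemma Q2.exists {k : ℕ} {P : (Fin k → ℕ) → (Fin k → ℕ) → Prop} (h : Q2 k P) :
    ∃ s t, P s t := by
  induction k with
  | zero => exact ⟨_, _, h⟩
  | succ k ih =>
    obtain ⟨m, hm⟩ := Filter.Eventually.exists h
    obtain ⟨n, hn⟩ := hm.exists
    obtain ⟨s, t, hst⟩ := ih hn
    exact ⟨_, _, hst⟩

/-- **Concentration.** -/
theorem conc {E : ℕ → Type} [∀ n, NormedAddCommGroup (E n)] [∀ n, ProperSpace (E n)] (k : ℕ) (f g : (Fin k → ℕ) → W E) (C : ℝ)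
    (hf : ∀ s, ‖f s‖ ≤ C) (hg : ∀ s, ‖g s‖ ≤ C) {ε : ℝ} (hε : 0 < ε) :
    Q2 k fun s t => ‖IL k f - IL k g‖ + ‖f s - IL k f‖ + ‖g t - IL k g‖ ≤ ‖f s - g t‖ + ε := by
  induction k generalizing ε with
  | zero =>
    show ‖f Fin.elim0 - g Fin.elim0‖ + ‖f Fin.elim0 - f Fin.elim0‖ +
      ‖g Fin.elim0 - g Fin.elim0‖ ≤ ‖f Fin.elim0 - g Fin.elim0‖ + ε
    simp only [sub_self, norm_zero, add_zero]
    linarith
  | succ k ih =>
    have ha := cl_spec (fun m => IL k fun t => f (Fin.cons m t)) C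
      (fun m => norm_IL k _ C fun t => hf _)
    have hb := cl_spec (fun m => IL k fun t => g (Fin.cons m t)) C
      (fun m => norm_IL k _ C fun t => hg _)
    have h2 := base2 _ _ _ _ ha hb (half_pos hε)
    show ∀ᶠ m in (U : Filter ℕ), ∀ᶠ n in (U : Filter ℕ), Q2 k fun s t =>
      ‖IL (k + 1) f - IL (k + 1) g‖ + ‖f (Fin.cons m s) - IL (k + 1) f‖ +
        ‖g (Fin.cons n t) - IL (k + 1) g‖ ≤ ‖f (Fin.cons m s) - g (Fin.cons n t)‖ + ε
    filter_upwards [h2] with m hm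
    filter_upwards [hm] with n hn
    refine (ih (fun t => f (Fin.cons m t)) (fun t => g (Fin.cons n t)) (fun _ => hf _)
      (fun _ => hg _) (half_pos hε)).mono fun s t hst => ?_
    have e1 : IL (k + 1) f = cl fun m => IL k fun t => f (Fin.cons m t) := rfl
    have e2 : IL (k + 1) g = cl fun m => IL k fun t => g (Fin.cons m t) := rfl
    rw [← e1, ← e2] at hn
    have t1 : ‖f (Fin.cons m s) - IL (k + 1) f‖ ≤
        ‖f (Fin.cons m s) - IL k (fun t => f (Fin.cons m t))‖ +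
          ‖IL k (fun t => f (Fin.cons m t)) - IL (k + 1) f‖ := norm_sub_le_norm_sub_add_norm_sub _ _ _
    have t2 : ‖g (Fin.cons n t) - IL (k + 1) g‖ ≤
        ‖g (Fin.cons n t) - IL k (fun t => g (Fin.cons n t))‖ +
          ‖IL k (fun t => g (Fin.cons n t)) - IL (k + 1) g‖ := norm_sub_le_norm_sub_add_norm_sub _ _ _
    linarith

/-! ### Interlaced pairs -/

/-- `a < s 0 < t 0 < s 1 < t 1 < ⋯`. -/
def Inter : ∀ k : ℕ, ℕ → (Fin k → ℕ) → (Fin k → ℕ) → Prop
  | 0, _, _, _ => True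
  | k + 1, a, s, t => a < s 0 ∧ s 0 < t 0 ∧ Inter k (t 0) (Fin.tail s) (Fin.tail t)

lemma eventually_gt (a : ℕ) : ∀ᶠ m in (U : Filter ℕ), a < m :=
  Nat.hyperfilter_le_atTop (Filter.eventually_gt_atTop a)

lemma Q2_inter (k a : ℕ) : Q2 k (Inter k a) := by
  induction k generalizing a with
  | zero => trivial
  | succ k ih =>
    show ∀ᶠ m in (U : Filter ℕ), ∀ᶠ n in (U : Filter ℕ), Q2 k fun s t =>
      Inter (k + 1) a (Fin.cons m s) (Fin.cons n t)
    filter_upwards [eventually_gt a] with m hm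
    filter_upwards [eventually_gt m] with n hn
    refine (ih n).mono fun s t hst => ?_
    exact ⟨by simpa using hm, by simpa using hn, by simpa using hst⟩

/-- the number of entries above `i` -/
def cnt (i : ℕ) : ∀ k : ℕ, (Fin k → ℕ) → ℕ
  | 0, _ => 0
  | k + 1, s => (if i < s 0 then 1 else 0) + cnt i k (Fin.tail s)

lemma cnt_le (i k : ℕ) (s : Fin k → ℕ) : cnt i k s ≤ k := by
  induction k with
  | zero => exact le_rfl
  | succ k ih =>
    have := ih (Fin.tail s)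
    unfold cnt
    split_ifs <;> omega

lemma cnt_low (i k a : ℕ) (s t : Fin k → ℕ) (h : Inter k a s t) (hi : i ≤ a) :
    cnt i k s = k ∧ cnt i k t = k := by
  induction k generalizing a with
  | zero => exact ⟨rfl, rfl⟩
  | succ k ih =>
    obtain ⟨h1, h2, h3⟩ := h
    have := ih (t 0) (Fin.tail s) (Fin.tail t) h3 (by omega)
    unfold cnt
    rw [if_pos (by omega), if_pos (by omega), this.1, this.2]
    omega

lemma cnt_inter (i k a : ℕ) (s t : Fin k → ℕ) (h : Inter k a s t) :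
    cnt i k s ≤ cnt i k t ∧ cnt i k t ≤ cnt i k s + 1 := by
  induction k generalizing a with
  | zero => exact ⟨le_rfl, Nat.zero_le _⟩
  | succ k ih =>
    obtain ⟨h1, h2, h3⟩ := h
    have h4 := ih (t 0) (Fin.tail s) (Fin.tail t) h3
    unfold cnt
    by_cases hi : i < t 0
    · have h5 := cnt_low i k (t 0) (Fin.tail s) (Fin.tail t) h3 (by omega)
      rw [h5.1, h5.2, if_pos hi]
      split_ifs <;> omega
    · rw [if_neg hi, if_neg (by omega)]
      omega

/-- an upper bound for the entries -/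
def top : ∀ k : ℕ, (Fin k → ℕ) → ℕ
  | 0, _ => 0
  | k + 1, s => max (s 0) (top k (Fin.tail s))

lemma cnt_top (i k : ℕ) (s : Fin k → ℕ) (h : top k s ≤ i) : cnt i k s = 0 := by
  induction k with
  | zero => rfl
  | succ k ih =>
    unfold top at h
    unfold cnt
    rw [if_neg (by omega), ih _ (by omega)]

end Pool.Agent.TH321.BR
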