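import Mathlib
import Pool.Agent.TH321.BR.Conc

set_option autoImplicit false

/-!
The quotient map `Q : (⊕ ℓ_∞^n)_1 → c_0 ⊆ ℓ_∞`, and the space `X`.
-/

namespace Pool.Agent.TH321.BR

open Filter Topology

section

variable (𝕜 : Type) [RCLike 𝕜]

/-- `(⊕_n ℓ_∞^n)_1`. -/
abbrev WW := W fun n : ℕ => (Fin n → 𝕜)

/-- `ℓ_∞`. -/
abbrev Linf := lp (fun _ : ℕ => 𝕜) ⊤

variable {𝕜}

/-- the `i`-th entry of the `n`-th block -/
noncomputable def ent (w : ∀ n : ℕ, Fin n → 𝕜) (i n : ℕ) : 𝕜 := if h : i < n then w n ⟨i, h⟩ else 0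

lemma norm_ent_le (w : ∀ n : ℕ, Fin n → 𝕜) (i n : ℕ) : ‖ent w i n‖ ≤ ‖w n‖ := by
  unfold ent
  split_ifs with h
  · exact norm_le_pi_norm _ _
  · rw [norm_zero]; exact norm_nonneg _

lemma ent_eq_zero (w : ∀ n : ℕ, Fin n → 𝕜) (i n : ℕ) (h : n ≤ i) : ent w i n = 0 := by
  unfold ent
  rw [dif_neg (by omega)]

lemma ent_add (w w' : ∀ n : ℕ, Fin n → 𝕜) (i n : ℕ) :
    ent (w + w') i n = ent w i n + ent w' i n := by
  unfold ent
  split_ifs with h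
  · rfl
  · rw [add_zero]

lemma ent_smul (c : 𝕜) (w : ∀ n : ℕ, Fin n → 𝕜) (i n : ℕ) :
    ent (c • w) i n = c * ent w i n := by
  unfold ent
  split_ifs with h
  · rfl
  · rw [mul_zero]

lemma summable_norm_ent (w : WW 𝕜) (i : ℕ) : Summable fun n => ‖ent w i n‖ :=
  Summable.of_nonneg_of_le (fun _ => norm_nonneg _) (fun n => norm_ent_le w i n) (summable_W w)

/-- the `i`-th coordinate of `Q w` -/
noncomputable def qf (i : ℕ) (w : WW 𝕜) : 𝕜 := ∑' n, ent w i n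

lemma norm_qf_le (i : ℕ) (w : WW 𝕜) : ‖qf i w‖ ≤ ‖w‖ := by
  unfold qf
  refine (norm_tsum_le_tsum_norm (summable_norm_ent w i)).trans ?_
  rw [norm_W]
  exact (summable_norm_ent w i).tsum_le_tsum (fun n => norm_ent_le w i n) (summable_W w)

lemma qf_add (i : ℕ) (w w' : WW 𝕜) : qf i (w + w') = qf i w + qf i w' := by
  unfold qf
  rw [← (summable_norm_ent w i).of_norm.tsum_add (summable_norm_ent w' i).of_norm]
  refine tsum_congr fun n => ?_
  exact ent_add w w' i n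

lemma qf_smul (i : ℕ) (c : 𝕜) (w : WW 𝕜) : qf i (c • w) = c * qf i w := by
  unfold qf
  rw [← tsum_mul_left]
  refine tsum_congr fun n => ?_
  exact ent_smul c w i n

lemma tail_le (α β : ℕ → ℝ) (ha : Summable α) (hb : Summable β) (N : ℕ)
    (h0 : ∀ n < N, β n = 0) (h : ∀ n, β n ≤ α n) : ∑' n, β n ≤ ∑' n, α (n + N) := by
  rw [← hb.sum_add_tsum_nat_add N]
  have h2 : ∑ n ∈ Finset.range N, β n = 0 :=
    Finset.sum_eq_zero fun n hn => h0 n (Finset.mem_range.1 hn)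
  rw [h2, zero_add]
  have s2 : Summable fun n => β (n + N) := (summable_nat_add_iff N).2 hb
  have s3 : Summable fun n => α (n + N) := (summable_nat_add_iff N).2 ha
  exact s2.tsum_le_tsum (fun n => h (n + N)) s3

/-- `Q w` tends to zero -/
lemma qf_small (w : WW 𝕜) {ε : ℝ} (hε : 0 < ε) : ∃ i, ‖qf i w‖ < ε := by
  have h0 := tendsto_sum_nat_add (fun n => ‖w n‖)
  obtain ⟨N, hN⟩ := (h0.eventually (gt_mem_nhds hε)).exists
  have h1 : ‖qf N w‖ ≤ ∑' n, ‖ent w N n‖ := norm_tsum_le_tsum_norm (summable_norm_ent w N)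
  have h2 := tail_le (fun n => ‖w n‖) (fun n => ‖ent w N n‖) (summable_W w)
    (summable_norm_ent w N) N (fun n hn => by rw [ent_eq_zero _ _ _ hn.le, norm_zero])
    (fun n => norm_ent_le w N n)
  exact ⟨N, (h1.trans h2).trans_lt hN⟩

variable (𝕜) in
/-- the quotient map as a bounded operator into `ℓ_∞` -/
noncomputable def Q : WW 𝕜 →L[𝕜] Linf 𝕜 :=
  LinearMap.mkContinuous
    { toFun := fun w => ⟨fun i => qf i w, memℓp_infty ⟨‖w‖, by
        rintro _ ⟨i, rfl⟩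
        exact norm_qf_le i w⟩⟩
      map_add' := fun w w' => by
        ext i
        exact qf_add i w w'
      map_smul' := fun c w => by
        ext i
        exact qf_smul i c w } 1 (fun w => by
    rw [one_mul]
    exact lp.norm_le_of_forall_le (norm_nonneg _) fun i => norm_qf_le i w)

lemma Q_apply (w : WW 𝕜) (i : ℕ) : Q 𝕜 w i = qf i w := rfl

/-! ### The blocks -/

/-- the vector `y` (cut at `n`) put into the `n`-th block -/
noncomputable def blk (n : ℕ) : (Fin n → 𝕜) →L[𝕜] WW 𝕜 :=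
  lp.singleContinuousLinearMap 𝕜 (fun n : ℕ => (Fin n → 𝕜)) 1 n

lemma norm_blk (n : ℕ) (v : Fin n → 𝕜) : ‖blk n v‖ = ‖v‖ :=
  lp.norm_single (E := fun n : ℕ => (Fin n → 𝕜)) one_pos n v

lemma qf_blk (i n : ℕ) (v : Fin n → 𝕜) : qf i (blk n v) = if h : i < n then v ⟨i, h⟩ else 0 := by
  unfold qf
  rw [tsum_eq_single n]
  · unfold ent
    have h1 : (blk n v) n = v := lp.single_apply_self (E := fun n : ℕ => (Fin n → 𝕜)) 1 n v
    rw [h1]
  · intro m hm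
    have h1 : (blk n v) m = 0 := by
      have := lp.single_apply (E := fun n : ℕ => (Fin n → 𝕜)) 1 n v m
      rw [Pi.single_eq_of_ne hm] at this
      exact this
    unfold ent
    rw [h1]
    split_ifs <;> rfl

/-- the first `n` entries of a sequence -/
def cut (y : ℕ → 𝕜) (n : ℕ) : Fin n → 𝕜 := fun i => y i

lemma qf_cut (i n : ℕ) (y : ℕ → 𝕜) : qf i (blk n (cut y n)) = if i < n then y i else 0 := by
  rw [qf_blk]
  split_ifs <;> rfl

/-! ### The ambient space and `X` -/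

/-- the weights -/
noncomputable def wt (j : ℕ) : ℝ := 1 / (j + 1)

lemma wt_pos (j : ℕ) : 0 < wt j := by unfold wt; positivity

lemma wt_le (j : ℕ) : wt j ≤ 1 := by
  unfold wt
  rw [div_le_one (by positivity)]
  have : (0 : ℝ) ≤ j := Nat.cast_nonneg j
  linarith

variable (𝕜) in
/-- the ambient space -/
noncomputable abbrev Amb := lp (fun _ : ℕ => (Linf 𝕜 × WW 𝕜)) ⊤

/-- the `j`-th inclusion -/
noncomputable def inc (j : ℕ) : WW 𝕜 →L[𝕜] Amb 𝕜 :=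
  (lp.singleContinuousLinearMap 𝕜 (fun _ : ℕ => (Linf 𝕜 × WW 𝕜)) ⊤ j).comp
    ((Q 𝕜).prod ((wt j : 𝕜) • ContinuousLinearMap.id 𝕜 (WW 𝕜)))

lemma inc_apply (j : ℕ) (w : WW 𝕜) :
    inc j w = lp.single ⊤ j (Q 𝕜 w, (wt j : 𝕜) • w) := rfl

lemma inc_self (j : ℕ) (w : WW 𝕜) : (inc j w) j = (Q 𝕜 w, (wt j : 𝕜) • w) := by
  rw [inc_apply]
  exact lp.single_apply_self (E := fun _ : ℕ => (Linf 𝕜 × WW 𝕜)) _ j _

lemma inc_ne (j l : ℕ) (h : l ≠ j) (w : WW 𝕜) : (inc j w) l = 0 := by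
  rw [inc_apply, lp.single_apply, Pi.single_eq_of_ne h]

lemma norm_inc (j : ℕ) (w : WW 𝕜) : ‖inc j w‖ = max ‖Q 𝕜 w‖ (wt j * ‖w‖) := by
  rw [inc_apply, lp.norm_single (by norm_num), Prod.norm_def]
  simp only [norm_smul, RCLike.norm_ofReal, abs_of_pos (wt_pos j)]

lemma norm_inc_le (j : ℕ) (w : WW 𝕜) (c : ℝ) (h1 : ∀ i, ‖qf i w‖ ≤ c) (h2 : wt j * ‖w‖ ≤ c) :
    ‖inc j w‖ ≤ c := by
  rw [norm_inc]
  refine max_le ?_ h2
  exact lp.norm_le_of_forall_le ((norm_nonneg _).trans (h1 0)) h1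

variable (𝕜) in
/-- the generators of `X` -/
noncomputable def gens : Set (Amb 𝕜) := ⋃ p : ℕ × ℕ, Set.range fun v : Fin p.2 → 𝕜 => inc p.1 (blk p.2 v)

variable (𝕜) in
/-- the separable space `X` -/
noncomputable def XS : Submodule 𝕜 (Amb 𝕜) := (Submodule.span 𝕜 (gens 𝕜)).topologicalClosure

variable (𝕜) in
/-- the separable space `X` -/
noncomputable abbrev X : Type := XS 𝕜

noncomputable instance : CompleteSpace (X 𝕜) :=
  inferInstanceAs (CompleteSpace (Submodule.span 𝕜 (gens 𝕜)).topologicalClosure)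

instance : TopologicalSpace.SeparableSpace (X 𝕜) := by
  have h1 : TopologicalSpace.IsSeparable (gens 𝕜) := by
    refine TopologicalSpace.IsSeparable.iUnion fun p => ?_
    exact TopologicalSpace.isSeparable_range ((inc p.1).continuous.comp (blk p.2).continuous)
  have h2 : TopologicalSpace.IsSeparable (closure (Submodule.span 𝕜 (gens 𝕜) : Set (Amb 𝕜))) :=
    (h1.span (R := 𝕜)).closure
  exact h2.separableSpace

lemma inc_mem (j n : ℕ) (v : Fin n → 𝕜) : inc j (blk n v) ∈ XS 𝕜 :=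
  Submodule.le_topologicalClosure _ (Submodule.subset_span (Set.mem_iUnion.2 ⟨(j, n), v, rfl⟩))

/-- the elements of `X` satisfy `wt j • (x j).1 = Q 𝕜 (x j).2`. -/
lemma rel_X (x : Amb 𝕜) (hx : x ∈ XS 𝕜) (j : ℕ) : (wt j : 𝕜) • (x j).1 = Q 𝕜 (x j).2 := by
  let ev : Amb 𝕜 →L[𝕜] (Linf 𝕜 × WW 𝕜) := lp.evalCLM 𝕜 (fun _ : ℕ => (Linf 𝕜 × WW 𝕜)) ⊤ j
  let T : Amb 𝕜 →L[𝕜] Linf 𝕜 :=
    (wt j : 𝕜) • (ContinuousLinearMap.fst 𝕜 _ _).comp ev -
      (Q 𝕜).comp ((ContinuousLinearMap.snd 𝕜 _ _).comp ev)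
  have h1 : XS 𝕜 ≤ T.ker := by
    refine Submodule.topologicalClosure_minimal _ ?_ T.isClosed_ker
    rw [Submodule.span_le]
    intro y hy
    obtain ⟨p, v, rfl⟩ := Set.mem_iUnion.1 hy
    show (wt j : 𝕜) • ((inc p.1 (blk p.2 v)) j).1 - Q 𝕜 ((inc p.1 (blk p.2 v)) j).2 = 0
    by_cases h : j = p.1
    · subst h
      rw [inc_self]
      simp only [map_smul, sub_self]
    · rw [inc_ne _ _ h]
      simp
  have h2 : T x = 0 := h1 hx
  exact sub_eq_zero.1 h2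

/-- the element of `X` carried by the block `n` of the `j`-th copy -/
noncomputable def io (j n : ℕ) (v : Fin n → 𝕜) : X 𝕜 := ⟨inc j (blk n v), inc_mem j n v⟩

/-- the `j`-th component -/
noncomputable def pr (j : ℕ) (x : X 𝕜) : WW 𝕜 := ((wt j)⁻¹ : 𝕜) • ((x : Amb 𝕜) j).2

lemma wt_ne (j : ℕ) : ((wt j : ℝ) : 𝕜) ≠ 0 := by
  rw [Ne, RCLike.ofReal_eq_zero]
  exact (wt_pos j).ne'

lemma qf_pr (j i : ℕ) (x : X 𝕜) : qf i (pr j x) = ((x : Amb 𝕜) j).1 i := by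
  have h := rel_X (x : Amb 𝕜) x.2 j
  have h2 : qf i ((x : Amb 𝕜) j).2 = (wt j : 𝕜) * ((x : Amb 𝕜) j).1 i := by
    rw [← Q_apply, ← h]
    rfl
  unfold pr
  rw [qf_smul, h2, ← mul_assoc, inv_mul_cancel₀ (wt_ne j), one_mul]

lemma pr_io (j n : ℕ) (v : Fin n → 𝕜) : pr j (io j n v) = blk n v := by
  unfold pr io
  show ((wt j)⁻¹ : 𝕜) • ((inc j (blk n v)) j).2 = blk n v
  rw [inc_self]
  show ((wt j)⁻¹ : 𝕜) • ((wt j : 𝕜) • blk n v) = blk n v
  rw [smul_smul, inv_mul_cancel₀ (wt_ne j), one_smul]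

lemma norm_pr_sub (j : ℕ) (x y : X 𝕜) : ‖pr j x - pr j y‖ ≤ (wt j)⁻¹ * ‖x - y‖ := by
  unfold pr
  rw [← smul_sub, norm_smul, norm_inv, RCLike.norm_ofReal, abs_of_pos (wt_pos j)]
  refine mul_le_mul_of_nonneg_left ?_ (inv_nonneg.2 (wt_pos j).le)
  have h1 : ‖((x : Amb 𝕜) - (y : Amb 𝕜)) j‖ ≤ ‖(x : Amb 𝕜) - (y : Amb 𝕜)‖ :=
    lp.norm_apply_le_norm (by norm_num) _ j
  exact (norm_snd_le (((x : Amb 𝕜) - (y : Amb 𝕜)) j)).trans h1

lemma norm_fst_sub (j i : ℕ) (x y : X 𝕜) :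
    ‖((x : Amb 𝕜) j).1 i - ((y : Amb 𝕜) j).1 i‖ ≤ ‖x - y‖ := by
  have h1 : ‖((x : Amb 𝕜) - (y : Amb 𝕜)) j‖ ≤ ‖(x : Amb 𝕜) - (y : Amb 𝕜)‖ :=
    lp.norm_apply_le_norm (by norm_num) _ j
  have h2 := (norm_fst_le (((x : Amb 𝕜) - (y : Amb 𝕜)) j)).trans h1
  have h3 : ‖(((x : Amb 𝕜) - (y : Amb 𝕜)) j).1 i‖ ≤ ‖(((x : Amb 𝕜) - (y : Amb 𝕜)) j).1‖ :=
    lp.norm_apply_le_norm (by norm_num) _ i
  exact h3.trans h2

lemma norm_io_sub (j n : ℕ) (v v' : Fin n → 𝕜) (c : ℝ) (h : ‖v - v'‖ ≤ c) :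
    ‖io j n v - io j n v'‖ ≤ c := by
  show ‖inc j (blk n v) - inc j (blk n v')‖ ≤ c
  rw [← map_sub, ← map_sub]
  have hb := norm_blk n (v - v')
  refine norm_inc_le j _ c (fun i => ?_) ?_
  · exact (norm_qf_le i _).trans (hb.trans_le h)
  · rw [hb]
    have h1 := wt_le j
    have h2 := wt_pos j
    have h3 := norm_nonneg (v - v')
    nlinarith

lemma norm_io_cut (j m n : ℕ) (hmn : m ≤ n) (y : ℕ → 𝕜) (hy : ∀ i, ‖y i‖ ≤ 1)
    (hy0 : ∀ i, m ≤ i → y i = 0) : ‖io j n (cut y n) - io j m (cut y m)‖ ≤ 2 * wt j := by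
  show ‖inc j (blk n (cut y n)) - inc j (blk m (cut y m))‖ ≤ 2 * wt j
  rw [← map_sub]
  have hb : ∀ l, ‖blk l (cut y l)‖ ≤ 1 := fun l => by
    rw [norm_blk]
    exact (pi_norm_le_iff_of_nonneg zero_le_one).2 fun i => hy _
  refine norm_inc_le j _ _ (fun i => ?_) ?_
  · have h1 : qf i (blk n (cut y n) - blk m (cut y m)) = 0 := by
      have e : blk n (cut y n) - blk m (cut y m) =
          blk n (cut y n) + (-1 : 𝕜) • blk m (cut y m) := by
        rw [neg_one_smul, sub_eq_add_neg]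
      rw [e, qf_add, qf_smul, qf_cut, qf_cut]
      by_cases hi : i < m
      · rw [if_pos hi, if_pos (by omega)]
        ring
      · rw [if_neg hi]
        split_ifs
        · rw [hy0 i (by omega)]; ring
        · ring
    rw [h1, norm_zero]
    have := wt_pos j
    positivity
  · have h1 := norm_sub_le (blk n (cut y n)) (blk m (cut y m))
    have h2 := hb n
    have h3 := hb m
    have h4 := wt_pos j
    nlinarith

variable (𝕜) in
/-- **The properties of `X` used below.** -/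
theorem exists_space : ∃ (X : Type) (_ : NormedAddCommGroup X) (_ : NormedSpace 𝕜 X),
    CompleteSpace X ∧ TopologicalSpace.SeparableSpace X ∧
    ∀ ε : ℝ, 0 < ε → ∃ (io : ∀ n : ℕ, (Fin n → 𝕜) → X) (pr : X → WW 𝕜) (C : ℝ),
      0 < C ∧
      (∀ x y, ‖pr x - pr y‖ ≤ C * ‖x - y‖) ∧
      (∀ x y i, ‖qf i (pr x) - qf i (pr y)‖ ≤ ‖x - y‖) ∧
      (∀ n v i, qf i (pr (io n v)) = if h : i < n then v ⟨i, h⟩ else 0) ∧
      (∀ n v v' c, ‖v - v'‖ ≤ c → ‖io n v - io n v'‖ ≤ c) ∧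
      (∀ n, io n 0 = 0) ∧
      (∀ m n, m ≤ n → ∀ y : ℕ → 𝕜, (∀ i, ‖y i‖ ≤ 1) → (∀ i, m ≤ i → y i = 0) →
        ‖io n (cut y n) - io m (cut y m)‖ ≤ ε) := by
  refine ⟨X 𝕜, inferInstance, inferInstance, inferInstance, inferInstance, fun ε hε => ?_⟩
  obtain ⟨j, hj⟩ : ∃ j : ℕ, 2 * wt j ≤ ε := by
    obtain ⟨j, hj⟩ := exists_nat_one_div_lt (half_pos hε)
    refine ⟨j, ?_⟩
    unfold wt
    linarith
  refine ⟨io j, pr j, (wt j)⁻¹, inv_pos.2 (wt_pos j), norm_pr_sub j, fun x y i => ?_,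
    fun n v i => ?_, norm_io_sub j, fun n => ?_, fun m n hmn y h1 h2 => ?_⟩
  · rw [qf_pr, qf_pr]
    exact norm_fst_sub j i x y
  · rw [pr_io, qf_blk]
  · refine Subtype.ext ?_
    show inc j (blk n 0) = 0
    rw [map_zero, map_zero]
  · exact (norm_io_cut j m n hmn y h1 h2).trans hj

end

end Pool.Agent.TH321.BR
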