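import Mathlib
import Pool.Agent.TH321.BR.Space

set_option autoImplicit false

/-!
There is a separable Banach space whose unit ball is not a uniformly continuous retract of the unit
ball of the bidual.
-/

namespace Pool.Agent.TH321.BR

open Filter Topology Metric

section bidual

variable {𝕜 : Type} [RCLike 𝕜] {X : Type} [NormedAddCommGroup X] [NormedSpace 𝕜 X]

lemma exists_xi (z : ℕ → X) (C : ℝ) (hz : ∀ n, ‖z n‖ ≤ C) :
    ∃ ξ : StrongDual 𝕜 (StrongDual 𝕜 X), ∀ φ : StrongDual 𝕜 X,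
      Tendsto (fun n => φ (z n)) U (𝓝 (ξ φ)) := by
  have hK := WeakDual.isCompact_closedBall (𝕜 := 𝕜) (E := StrongDual 𝕜 X) 0 C
  let J : ℕ → WeakDual 𝕜 (StrongDual 𝕜 X) := fun n =>
    StrongDual.toWeakDual (NormedSpace.inclusionInDoubleDual 𝕜 X (z n))
  obtain ⟨x, -, hx⟩ := hK.ultrafilter_le_nhds (U.map J) (by
    rw [Ultrafilter.coe_map, Filter.le_principal_iff]
    refine Filter.mem_map.2 (Filter.univ_mem' fun n => ?_)
    exact mem_closedBall_zero_iff.2 ((NormedSpace.double_dual_bound 𝕜 X (z n)).trans (hz n)))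
  refine ⟨WeakDual.toStrongDual x, fun φ => ?_⟩
  have h1 : Tendsto J U (𝓝 x) := hx
  exact ((WeakDual.eval_continuous φ).tendsto x).comp h1

lemma xi_sub (z z' : ℕ → X) (ξ ξ' : StrongDual 𝕜 (StrongDual 𝕜 X))
    (h : ∀ φ : StrongDual 𝕜 X, Tendsto (fun n => φ (z n)) U (𝓝 (ξ φ)))
    (h' : ∀ φ : StrongDual 𝕜 X, Tendsto (fun n => φ (z' n)) U (𝓝 (ξ' φ))) (c : ℝ) (hc : 0 ≤ c)
    (hzz : ∀ᶠ n in (U : Filter ℕ), ‖z n - z' n‖ ≤ c) : ‖ξ - ξ'‖ ≤ c := by
  refine ContinuousLinearMap.opNorm_le_bound _ hc fun φ => ?_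
  have h1 : Tendsto (fun n => ‖φ (z n) - φ (z' n)‖) U (𝓝 ‖(ξ - ξ') φ‖) :=
    ((h φ).sub (h' φ)).norm
  refine le_of_tendsto h1 ?_
  filter_upwards [hzz] with n hn
  rw [← map_sub]
  calc ‖φ (z n - z' n)‖ ≤ ‖φ‖ * ‖z n - z' n‖ := φ.le_opNorm _
    _ ≤ ‖φ‖ * c := by gcongr
    _ = c * ‖φ‖ := mul_comm _ _

lemma mem_ball_dd {ξ : StrongDual 𝕜 (StrongDual 𝕜 X)} (h : ‖ξ‖ ≤ 1) :
    ξ ∈ closedBall (0 : StrongDual 𝕜 (StrongDual 𝕜 X)) 1 := by
  rw [mem_closedBall]
  exact (dist_zero_right ξ).trans_le h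

end bidual

/-- the staircase -/
noncomputable def stair (𝕜 : Type) [RCLike 𝕜] (k : ℕ) (s : Fin k → ℕ) (i : ℕ) : 𝕜 :=
  (((cnt i k s : ℝ) / k : ℝ) : 𝕜)

section stair

variable {𝕜 : Type} [RCLike 𝕜] {k : ℕ}

lemma norm_stair_le (s : Fin k → ℕ) (i : ℕ) : ‖stair 𝕜 k s i‖ ≤ 1 := by
  unfold stair
  rw [RCLike.norm_ofReal, abs_of_nonneg (by positivity)]
  refine div_le_one_of_le₀ ?_ (Nat.cast_nonneg _)
  exact_mod_cast cnt_le i k s

lemma stair_top (s : Fin k → ℕ) (i : ℕ) (h : top k s ≤ i) : stair 𝕜 k s i = 0 := by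
  unfold stair
  rw [cnt_top i k s h]
  simp

lemma stair_low (hk : 0 < k) (a : ℕ) (s t : Fin k → ℕ) (h : Inter k a s t) (i : ℕ) (hi : i ≤ a) :
    stair 𝕜 k s i = 1 := by
  unfold stair
  rw [(cnt_low i k a s t h hi).1, div_self (by positivity)]
  simp

lemma stair_inter (a : ℕ) (s t : Fin k → ℕ) (h : Inter k a s t) (i : ℕ) :
    ‖stair 𝕜 k s i - stair 𝕜 k t i‖ ≤ 1 / k := by
  unfold stair
  obtain ⟨h1, h2⟩ := cnt_inter i k a s t h
  rw [← RCLike.ofReal_sub, RCLike.norm_ofReal, ← sub_div, abs_div, Nat.abs_cast]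
  refine div_le_div_of_nonneg_right ?_ (Nat.cast_nonneg _)
  have h1' : (cnt i k s : ℝ) ≤ cnt i k t := by exact_mod_cast h1
  have h2' : (cnt i k t : ℝ) ≤ cnt i k s + 1 := by exact_mod_cast h2
  rw [abs_le]
  constructor <;> linarith

end stair

/-- **Main theorem.** -/
theorem main (𝕜 : Type) [RCLike 𝕜] :
    ∃ (X : Type) (_ : NormedAddCommGroup X) (_ : NormedSpace 𝕜 X),
      CompleteSpace X ∧ TopologicalSpace.SeparableSpace X ∧
      ¬ ∃ r : closedBall (0 : StrongDual 𝕜 (StrongDual 𝕜 X)) 1 → closedBall (0 : X) 1,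
        UniformContinuous r ∧
        ∀ (x : closedBall (0 : X) 1) (ξ : closedBall (0 : StrongDual 𝕜 (StrongDual 𝕜 X)) 1),
          (ξ : StrongDual 𝕜 (StrongDual 𝕜 X)) = NormedSpace.inclusionInDoubleDual 𝕜 X x →
            r ξ = x := by
  obtain ⟨X, i1, i2, i3, i4, hX⟩ := exists_space 𝕜
  refine ⟨X, i1, i2, i3, i4, ?_⟩
  rintro ⟨r, hr, hid⟩
  replace hr : ∀ ε > 0, ∃ δ > 0, ∀ {x y}, dist x y < δ → dist (r x) (r y) < ε :=
    Metric.uniformContinuous_iff.1 hr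
  -- the scale `ε`
  obtain ⟨τ, hτ, hr1⟩ := hr (1 / 8) (by norm_num)
  obtain ⟨io, pr, C, hC, hpr, hq, hio, hlip, hzero, hcut⟩ := hX (τ / 2) (by positivity)
  -- the number of levels
  obtain ⟨τ', hτ', hr2⟩ := hr (1 / (8 * C)) (by positivity)
  obtain ⟨k, hk, hkτ⟩ : ∃ k : ℕ, 0 < k ∧ (1 : ℝ) / k < τ' := by
    obtain ⟨n, hn⟩ := exists_nat_one_div_lt hτ'
    exact ⟨n + 1, n.succ_pos, by push_cast; exact hn⟩
  -- the elements of the bidual
  let z : (Fin k → ℕ) → ℕ → X := fun s n => io n (cut (stair 𝕜 k s) n)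
  have hcutnorm : ∀ s n, ‖cut (stair 𝕜 k s) n‖ ≤ 1 := fun s n =>
    (pi_norm_le_iff_of_nonneg zero_le_one).2 fun i => norm_stair_le s i
  have hz1 : ∀ s n, ‖z s n‖ ≤ 1 := by
    intro s n
    have := hlip n (cut (stair 𝕜 k s) n) 0 1 (by rw [sub_zero]; exact hcutnorm s n)
    rwa [hzero, sub_zero] at this
  choose ξ hξ using fun s => exists_xi (𝕜 := 𝕜) (z s) 1 (hz1 s)
  have hξ1 : ∀ s, ‖ξ s‖ ≤ 1 := by
    intro s
    have := xi_sub (𝕜 := 𝕜) (z s) (fun _ => 0) (ξ s) 0 (hξ s) (fun φ => by simp) 1 zero_le_one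
      (Eventually.of_forall fun n => by simpa using hz1 s n)
    have e : ξ s - 0 = ξ s := sub_zero (ξ s)
    rw [e] at this
    exact this
  let b : (Fin k → ℕ) → closedBall (0 : StrongDual 𝕜 (StrongDual 𝕜 X)) 1 := fun s =>
    ⟨ξ s, mem_ball_dd (hξ1 s)⟩
  -- the elements `z s (top s)`
  let N : (Fin k → ℕ) → ℕ := fun s => top k s
  have hJ : ∀ s, ‖NormedSpace.inclusionInDoubleDual 𝕜 X (z s (N s))‖ ≤ 1 := fun s =>
    (NormedSpace.double_dual_bound 𝕜 X _).trans (hz1 s _)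
  have hnear : ∀ s, ‖((r (b s) : closedBall (0 : X) 1) : X) - z s (N s)‖ < 1 / 8 := by
    intro s
    let x : closedBall (0 : X) 1 := ⟨z s (N s), by
      rw [mem_closedBall, dist_zero_right]; exact hz1 s _⟩
    let y : closedBall (0 : StrongDual 𝕜 (StrongDual 𝕜 X)) 1 :=
      ⟨NormedSpace.inclusionInDoubleDual 𝕜 X (z s (N s)), mem_ball_dd (hJ s)⟩
    have h1 : r y = x := hid x y rfl
    have h2 : dist (b s) y < τ := by
      refine (dist_eq_norm (ξ s) (NormedSpace.inclusionInDoubleDual 𝕜 X (z s (N s)))).trans_lt ?_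
      refine lt_of_le_of_lt ?_ (half_lt_self hτ)
      refine xi_sub (𝕜 := 𝕜) (z s) (fun _ => z s (N s)) (ξ s) _ (hξ s) (fun φ => ?_) _
        (by positivity) ?_
      · simp only [NormedSpace.dual_def]
        exact tendsto_const_nhds
      · have : ∀ᶠ n in (U : Filter ℕ), N s ≤ n :=
          Nat.hyperfilter_le_atTop (Filter.eventually_ge_atTop _)
        filter_upwards [this] with n hn
        exact hcut (N s) n hn _ (norm_stair_le s) (stair_top s)
    have h3 := hr1 h2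
    rw [h1, Subtype.dist_eq, dist_eq_norm] at h3
    exact h3
  -- the map into `W`
  let f : (Fin k → ℕ) → WW 𝕜 := fun s => pr (r (b s))
  have hfb : ∀ s, ‖f s‖ ≤ ‖pr 0‖ + C := by
    intro s
    have h1 := hpr (r (b s)) 0
    have h2 : ‖((r (b s) : closedBall (0 : X) 1) : X) - 0‖ ≤ 1 := by
      have := (r (b s)).2
      rwa [mem_closedBall, dist_eq_norm] at this
    have h3 : ‖f s‖ ≤ ‖pr (r (b s)) - pr 0‖ + ‖pr 0‖ := norm_le_norm_sub_add _ _
    nlinarith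
  have hosc : ∀ a s t, Inter k a s t → ‖f s - f t‖ ≤ 1 / 8 := by
    intro a s t hst
    have h1 : dist (b s) (b t) < τ' := by
      refine (dist_eq_norm (ξ s) (ξ t)).trans_lt ?_
      refine lt_of_le_of_lt ?_ hkτ
      refine xi_sub (𝕜 := 𝕜) (z s) (z t) (ξ s) (ξ t) (hξ s) (hξ t) _ (by positivity) ?_
      refine Eventually.of_forall fun n => hlip n _ _ _ ?_
      refine (pi_norm_le_iff_of_nonneg (by positivity)).2 fun i => ?_
      exact stair_inter a s t hst i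
    have h2 := hr2 h1
    rw [Subtype.dist_eq, dist_eq_norm] at h2
    calc ‖f s - f t‖ ≤ C * ‖((r (b s) : closedBall (0 : X) 1) : X) - r (b t)‖ := hpr _ _
      _ ≤ C * (1 / (8 * C)) := by gcongr
      _ = 1 / 8 := by field_simp
  have hval : ∀ a s t, Inter k a s t → ‖qf a (f s) - 1‖ ≤ 1 / 8 := by
    intro a s t hst
    have h1 := hq (r (b s)) (z s (N s)) a
    have h2 : qf a (pr (z s (N s))) = 1 := by
      rw [hio]
      have h3 : a < N s := by
        by_contra hcon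
        have h4 := stair_top (𝕜 := 𝕜) s a (not_lt.1 hcon)
        rw [stair_low hk a s t hst a le_rfl] at h4
        exact one_ne_zero h4
      rw [dif_pos h3]
      exact stair_low hk a s t hst a le_rfl
    rw [h2] at h1
    exact h1.trans (hnear s).le
  -- concentration
  have hconc := conc k f f _ hfb hfb (show (0 : ℝ) < 1 / 8 by norm_num)
  obtain ⟨a, ha⟩ := qf_small (IL k f) (show (0 : ℝ) < 1 / 4 by norm_num)
  obtain ⟨s, t, h1, h2⟩ := (hconc.and (Q2_inter k a)).exists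
  have h3 := hosc a s t h2
  have h4 := hval a s t h2
  have h5 : ‖f s - IL k f‖ ≤ 1 / 4 := by
    have := norm_nonneg (f t - IL k f)
    have := norm_nonneg (IL k f - IL k f)
    linarith
  have h6 : ‖qf a (f s) - qf a (IL k f)‖ ≤ 1 / 4 := by
    have e : qf a (f s) - qf a (IL k f) = qf a (f s - IL k f) := by
      have e1 : f s - IL k f = f s + (-1 : 𝕜) • IL k f := by
        rw [neg_one_smul, sub_eq_add_neg]
      rw [e1, qf_add, qf_smul]
      ring
    rw [e]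
    exact (norm_qf_le a _).trans h5
  have h7 : (1 : ℝ) ≤ ‖qf a (f s) - 1‖ + ‖qf a (f s) - qf a (IL k f)‖ + ‖qf a (IL k f)‖ := by
    have e : (1 : 𝕜) = -(qf a (f s) - 1) + (qf a (f s) - qf a (IL k f)) + qf a (IL k f) := by
      ring
    calc (1 : ℝ) = ‖(1 : 𝕜)‖ := by simp
      _ = ‖-(qf a (f s) - 1) + (qf a (f s) - qf a (IL k f)) + qf a (IL k f)‖ := by rw [← e]
      _ ≤ _ := by
        refine (norm_add_le _ _).trans (add_le_add_left ((norm_add_le _ _).trans ?_) _)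
        rw [norm_neg]
  linarith

end Pool.Agent.TH321.BR
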